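import Mathlib

/-!
Dichotomy for decompositions of a poset into `k` antichains: finitely many or uncountably many.
-/

namespace Pool.Agent.H.MP_233b81_lc

/-- maps to `k` colours all of whose fibres are antichains -/
def AntiCol (α : Type*) [PartialOrder α] (k : ℕ) : Set (α → Fin k) :=
  {f | ∀ x y, f x = f y → x ≤ y → x = y}

/-- Cantor: an infinite type has uncountably many subsets. -/
theorem not_countable_of_injection {β γ : Type*} [Infinite β] {Q : Set γ}
    (F : Set β → γ) (hF : Function.Injective F) (hQ : ∀ S, F S ∈ Q) : ¬ Q.Countable := by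
  intro hc
  have : Countable Q := hc.to_subtype
  let G : Set β → Q := fun S => ⟨F S, hQ S⟩
  have hG : Function.Injective G := fun a b h => hF (congrArg Subtype.val h)
  have : Countable (Set β) := hG.countable
  have h1 : Cardinal.mk (Set β) ≤ Cardinal.aleph0 := Cardinal.mk_le_aleph0
  have h2 : Cardinal.aleph0 ≤ Cardinal.mk β := Cardinal.aleph0_le_mk β
  have h3 : Cardinal.mk β < Cardinal.mk (Set β) := by
    rw [Cardinal.mk_set]; exact Cardinal.cantor _
  exact absurd (lt_of_le_of_lt h2 h3) (not_lt.mpr h1)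

/-- Existence of a height function. -/
theorem exists_height {α : Type*} [PartialOrder α] {k : ℕ} {f : α → Fin k}
    (hf : f ∈ AntiCol α k) :
    ∃ h : α → ℕ, (∀ x y, x < y → h x < h y) ∧ (∀ x, h x ≠ 0 → ∃ y, y < x ∧ h y + 1 = h x) := by
  classical
  have hlen : ∀ p : LTSeries α, p.length < k := by
    intro p
    have hinj : Function.Injective (fun i => f (p i)) := by
      intro i j hij
      by_contra hne
      rcases lt_or_gt_of_ne hne with h | h
      · have := p.strictMono h
        exact (this.ne) (hf _ _ hij this.le)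
      · have := p.strictMono h
        exact (this.ne) (hf _ _ hij.symm this.le)
    have := Fintype.card_le_of_injective _ hinj
    simpa using this
  let P : α → ℕ → Prop := fun x n => ∃ p : LTSeries α, p.last = x ∧ p.length = n
  have hP0 : ∀ x, P x 0 := fun x => ⟨RelSeries.singleton _ x, rfl, rfl⟩
  have hPk : ∀ x n, P x n → n ≤ k := fun x n ⟨p, _, h⟩ => h ▸ (hlen p).le
  let h : α → ℕ := fun x => Nat.findGreatest (P x) k
  have hspec : ∀ x, P x (h x) := fun x => Nat.findGreatest_spec (P := P x) (Nat.zero_le k) (hP0 x)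
  have hmax : ∀ x n, P x n → n ≤ h x := fun x n hn => Nat.le_findGreatest (hPk x n hn) hn
  have hmono : ∀ x y, x < y → h x < h y := by
    intro x y hxy
    obtain ⟨p, hp1, hp2⟩ := hspec x
    have : P y (h x + 1) := by
      refine ⟨p.snoc y (by rw [hp1]; exact hxy), by simp, ?_⟩
      rw [← hp2]; rfl
    exact hmax y _ this
  refine ⟨h, hmono, ?_⟩
  intro x hx
  obtain ⟨p, hp1, hp2⟩ := hspec x
  have hp3 : p.length ≠ 0 := by rw [hp2]; exact hx
  have hlt : p.eraseLast.last < x := by
    have := RelSeries.eraseLast_last_rel_last p hp3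
    rw [hp1] at this
    exact this
  refine ⟨p.eraseLast.last, hlt, ?_⟩
  have h1 : h p.eraseLast.last < h x := hmono _ _ hlt
  have h2 : p.length - 1 ≤ h p.eraseLast.last := hmax _ _ ⟨p.eraseLast, rfl, rfl⟩
  omega

section main

variable {α : Type*} [PartialOrder α] {k : ℕ}

/-- colours below `x` -/
noncomputable def Dn (f : α → Fin k) (x : α) : Finset (Fin k) := by
  classical exact Finset.univ.filter (fun c => ∃ z, z ≤ x ∧ f z = c)

/-- colours above `x` -/
noncomputable def Up (f : α → Fin k) (x : α) : Finset (Fin k) := by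
  classical exact Finset.univ.filter (fun c => ∃ z, x ≤ z ∧ f z = c)

theorem mem_Dn {f : α → Fin k} {x : α} {c : Fin k} : c ∈ Dn f x ↔ ∃ z, z ≤ x ∧ f z = c := by
  simp [Dn]

theorem mem_Up {f : α → Fin k} {x : α} {c : Fin k} : c ∈ Up f x ↔ ∃ z, x ≤ z ∧ f z = c := by
  simp [Up]

theorem card_Dn {f : α → Fin k} (hf : f ∈ AntiCol α k) {h : α → ℕ}
    (hpred : ∀ x, h x ≠ 0 → ∃ y, y < x ∧ h y + 1 = h x) :
    ∀ n x, h x = n → n + 1 ≤ (Dn f x).card := by
  classical
  intro n
  induction n with
  | zero =>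
    intro x _
    have : f x ∈ Dn f x := mem_Dn.2 ⟨x, le_rfl, rfl⟩
    exact Finset.card_pos.2 ⟨_, this⟩
  | succ n ih =>
    intro x hx
    obtain ⟨y, hyx, hy⟩ := hpred x (by omega)
    have hyn : h y = n := by omega
    have h1 := ih y hyn
    have h2 : insert (f x) (Dn f y) ⊆ Dn f x := by
      intro c hc
      rcases Finset.mem_insert.1 hc with rfl | hc
      · exact mem_Dn.2 ⟨x, le_rfl, rfl⟩
      · obtain ⟨z, hz, rfl⟩ := mem_Dn.1 hc
        exact mem_Dn.2 ⟨z, hz.trans hyx.le, rfl⟩
    have h3 : f x ∉ Dn f y := by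
      intro hc
      obtain ⟨z, hz, hzx⟩ := mem_Dn.1 hc
      have := hf _ _ hzx (hz.trans hyx.le)
      subst this
      exact absurd hyx (not_lt_of_ge hz)
    calc n + 1 + 1 ≤ (Dn f y).card + 1 := by omega
      _ = (insert (f x) (Dn f y)).card := (Finset.card_insert_of_notMem h3).symm
      _ ≤ _ := Finset.card_le_card h2

theorem card_Up {f : α → Fin k} (hf : f ∈ AntiCol α k) {h' : α → ℕ}
    (hsucc : ∀ x, h' x ≠ 0 → ∃ y, x < y ∧ h' y + 1 = h' x) :
    ∀ n x, h' x = n → n + 1 ≤ (Up f x).card := by
  classical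
  intro n
  induction n with
  | zero =>
    intro x _
    have : f x ∈ Up f x := mem_Up.2 ⟨x, le_rfl, rfl⟩
    exact Finset.card_pos.2 ⟨_, this⟩
  | succ n ih =>
    intro x hx
    obtain ⟨y, hyx, hy⟩ := hsucc x (by omega)
    have hyn : h' y = n := by omega
    have h1 := ih y hyn
    have h2 : insert (f x) (Up f y) ⊆ Up f x := by
      intro c hc
      rcases Finset.mem_insert.1 hc with rfl | hc
      · exact mem_Up.2 ⟨x, le_rfl, rfl⟩
      · obtain ⟨z, hz, rfl⟩ := mem_Up.1 hc
        exact mem_Up.2 ⟨z, hyx.le.trans hz, rfl⟩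
    have h3 : f x ∉ Up f y := by
      intro hc
      obtain ⟨z, hz, hzx⟩ := mem_Up.1 hc
      have := hf _ _ hzx.symm (hyx.le.trans hz)
      subst this
      exact absurd hyx (not_lt_of_ge hz)
    calc n + 1 + 1 ≤ (Up f y).card + 1 := by omega
      _ = (insert (f x) (Up f y)).card := (Finset.card_insert_of_notMem h3).symm
      _ ≤ _ := Finset.card_le_card h2

theorem Dn_inter_Up {f : α → Fin k} (hf : f ∈ AntiCol α k) {x : α} {c : Fin k}
    (h1 : c ∈ Dn f x) (h2 : c ∈ Up f x) : c = f x := by
  obtain ⟨z, hz, hzc⟩ := mem_Dn.1 h1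
  obtain ⟨w, hw, hwc⟩ := mem_Up.1 h2
  have := hf z w (hzc.trans hwc.symm) (hz.trans hw)
  subst this
  have : z = x := le_antisymm hz hw
  subst this
  exact hzc.symm

theorem disj_Dn_Up {f : α → Fin k} (hf : f ∈ AntiCol α k) {x y : α} (hxy : x < y) :
    Disjoint (Dn f x) (Up f y) := by
  classical
  rw [Finset.disjoint_left]
  intro c h1 h2
  obtain ⟨z, hz, hzc⟩ := mem_Dn.1 h1
  obtain ⟨w, hw, hwc⟩ := mem_Up.1 h2
  have := hf z w (hzc.trans hwc.symm) (hz.trans (hxy.le.trans hw))
  subst this
  exact absurd (hw.trans hz) (not_le_of_gt hxy)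

end main

/-- package of the two height functions -/
structure Heights (α : Type*) [PartialOrder α] (k : ℕ) where
  h : α → ℕ
  h' : α → ℕ
  mono : ∀ x y, x < y → h x < h y
  mono' : ∀ x y, x < y → h' y < h' x
  pred : ∀ x, h x ≠ 0 → ∃ y, y < x ∧ h y + 1 = h x
  succ : ∀ x, h' x ≠ 0 → ∃ y, x < y ∧ h' y + 1 = h' x
  le : ∀ x, h x + h' x < k

theorem exists_heights {α : Type*} [PartialOrder α] {k : ℕ} {f : α → Fin k}
    (hf : f ∈ AntiCol α k) : Nonempty (Heights α k) := by
  classical
  obtain ⟨h, hmono, hpred⟩ := exists_height hf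
  let g : αᵒᵈ → Fin k := fun x => f (OrderDual.ofDual x)
  have hg : g ∈ AntiCol αᵒᵈ k := by
    intro x y hxy hle
    have := hf (OrderDual.ofDual y) (OrderDual.ofDual x) hxy.symm hle
    exact congrArg OrderDual.toDual this.symm
  obtain ⟨h', hmono', hpred'⟩ := exists_height hg
  let H' : α → ℕ := fun x => h' (OrderDual.toDual x)
  have hm' : ∀ x y, x < y → H' y < H' x := fun x y hxy =>
    hmono' (OrderDual.toDual y) (OrderDual.toDual x) (OrderDual.toDual_lt_toDual.2 hxy)
  have hs' : ∀ x, H' x ≠ 0 → ∃ y, x < y ∧ H' y + 1 = H' x := by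
    intro x hx
    obtain ⟨y, hy1, hy2⟩ := hpred' (OrderDual.toDual x) hx
    exact ⟨OrderDual.ofDual y, hy1, hy2⟩
  refine ⟨⟨h, H', hmono, hm', hpred, hs', ?_⟩⟩
  intro x
  have h1 := card_Dn hf hpred (h x) x rfl
  have h2 := card_Up hf hs' (H' x) x rfl
  have h3 : (Dn f x ∩ Up f x).card ≤ 1 := by
    rw [Finset.card_le_one]
    intro a ha b hb
    rw [Finset.mem_inter] at ha hb
    rw [Dn_inter_Up hf ha.1 ha.2, Dn_inter_Up hf hb.1 hb.2]
  have h4 := Finset.card_union_add_card_inter (Dn f x) (Up f x)
  have h5 : (Dn f x ∪ Up f x).card ≤ k := by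
    simpa using Finset.card_le_univ (Dn f x ∪ Up f x)
  omega

section dichotomy

variable {α : Type*} [PartialOrder α] {k : ℕ}

/-- a map into `k` colours from a strictly monotone map with values below `k` -/
def mk (c : α → ℕ) (hc : ∀ x, c x < k) : α → Fin k := fun x => ⟨c x, hc x⟩

theorem mk_mem {c : α → ℕ} (hc : ∀ x, c x < k) (hmono : ∀ x y, x < y → c x < c y) :
    mk c hc ∈ AntiCol α k := by
  intro x y hxy hle
  by_contra hne
  have hlt : x < y := lt_of_le_of_ne hle hne
  have := hmono x y hlt
  have h2 : c x = c y := congrArg Fin.val hxy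
  omega

/-- infinitely many slack elements -/
theorem uncountable_of_slack (H : Heights α k)
    (hS : {x : α | H.h x + H.h' x + 1 ≠ k}.Infinite) : ¬ (AntiCol α k).Countable := by
  classical
  have : Infinite {x : α | H.h x + H.h' x + 1 ≠ k} := hS.to_subtype
  let φ : {x : α | H.h x + H.h' x + 1 ≠ k} → Fin k × Fin k := fun x =>
    (⟨H.h x.1, by have := H.le x.1; omega⟩, ⟨H.h' x.1, by have := H.le x.1; omega⟩)
  obtain ⟨v, hv⟩ := Finite.exists_infinite_fiber φ
  let T := φ ⁻¹' {v}
  have : Infinite T := hv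
  have hT : ∀ t : T, H.h t.1.1 = v.1.1 ∧ H.h' t.1.1 = v.2.1 := by
    intro t
    have := t.2
    simp only [T, Set.mem_preimage, Set.mem_singleton_iff, φ] at this
    rw [← this]
    exact ⟨rfl, rfl⟩
  -- the mixed colouring
  let c : Set T → α → ℕ := fun S x =>
    if ∃ t : T, t ∈ S ∧ t.1.1 ≤ x then k - 1 - H.h' x else H.h x
  have hck : ∀ S x, c S x < k := by
    intro S x
    have := H.le x
    simp only [c]
    split_ifs <;> omega
  have hcm : ∀ S x y, x < y → c S x < c S y := by
    intro S x y hxy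
    have h1 := H.mono x y hxy
    have h2 := H.mono' x y hxy
    have h3 := H.le x
    have h4 := H.le y
    simp only [c]
    by_cases hx : ∃ t : T, t ∈ S ∧ t.1.1 ≤ x
    · have hy : ∃ t : T, t ∈ S ∧ t.1.1 ≤ y := by
        obtain ⟨t, ht, htx⟩ := hx
        exact ⟨t, ht, htx.trans hxy.le⟩
      rw [if_pos hx, if_pos hy]
      omega
    · rw [if_neg hx]
      split_ifs <;> omega
  refine not_countable_of_injection (β := T) (fun S => mk (c S) (hck S)) ?_
    (fun S => mk_mem (hck S) (hcm S))
  intro S S' hSS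
  have key : ∀ (S : Set T) (t : T), c S t.1.1 = (if t ∈ S then k - 1 - v.2.1 else v.1.1) := by
    intro S t
    have hiff : (∃ s : T, s ∈ S ∧ s.1.1 ≤ t.1.1) ↔ t ∈ S := by
      constructor
      · rintro ⟨s, hs, hst⟩
        rcases hst.lt_or_eq with h | h
        · have := H.mono _ _ h
          rw [(hT s).1, (hT t).1] at this
          omega
        · have : s = t := Subtype.ext (Subtype.ext h)
          exact this ▸ hs
      · exact fun h => ⟨t, h, le_rfl⟩
    simp only [c]
    by_cases ht : t ∈ S
    · rw [if_pos (hiff.2 ht), if_pos ht, (hT t).2]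
    · rw [if_neg (fun h => ht (hiff.1 h)), if_neg ht, (hT t).1]
  ext t
  have h1 : c S t.1.1 = c S' t.1.1 := congrArg Fin.val (congrFun hSS t.1.1)
  rw [key, key] at h1
  have h2 : k - 1 - v.2.1 ≠ v.1.1 := by
    have h3 := t.1.2
    simp only [Set.mem_ofPred_eq] at h3
    have h4 := H.le t.1.1
    rw [(hT t).1, (hT t).2] at h3 h4
    omega
  by_cases ht : t ∈ S <;> by_cases ht' : t ∈ S' <;> simp [ht, ht'] at h1 ⊢
  · exact h2 h1
  · exact h2 h1.symm

/-- comparability graph between the full elements of level `i` and level `i+1` -/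
def levelGraph (H : Heights α k) (i : ℕ) : SimpleGraph α :=
  SimpleGraph.fromRel (fun x y => x < y ∧ H.h x = i ∧ H.h y = i + 1 ∧
    H.h x + H.h' x + 1 = k ∧ H.h y + H.h' y + 1 = k)

/-- infinitely many components -/
theorem uncountable_of_components (H : Heights α k) (i : ℕ) (hik : i + 1 < k)
    (hC : {C : (levelGraph H i).ConnectedComponent | ∃ x, H.h x = i ∧ H.h x + H.h' x + 1 = k ∧
      (levelGraph H i).connectedComponentMk x = C}.Infinite) : ¬ (AntiCol α k).Countable := by
  classical
  set 𝒞 := {C : (levelGraph H i).ConnectedComponent | ∃ x, H.h x = i ∧ H.h x + H.h' x + 1 = k ∧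
      (levelGraph H i).connectedComponentMk x = C} with h𝒞
  have : Infinite 𝒞 := hC.to_subtype
  let b : α → ℕ := fun x => if i + 1 ≤ H.h x then k - 1 - H.h' x else H.h x
  have hbk : ∀ x, b x < k := by
    intro x
    have := H.le x
    simp only [b]
    split_ifs <;> omega
  have hbm : ∀ x y, x < y → b x < b y := by
    intro x y hxy
    have h1 := H.mono x y hxy
    have h2 := H.mono' x y hxy
    have h3 := H.le x
    have h4 := H.le y
    simp only [b]
    split_ifs <;> omega
  let cc : α → (levelGraph H i).ConnectedComponent := (levelGraph H i).connectedComponentMk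
  let c : Set 𝒞 → α → ℕ := fun S x =>
    if ∃ C : 𝒞, C ∈ S ∧ cc x = C.1 then
      (if b x = i then i + 1 else if b x = i + 1 then i else b x) else b x
  have hck : ∀ S x, c S x < k := by
    intro S x
    have := hbk x
    simp only [c]
    split_ifs <;> omega
  have hadj : ∀ x y, x < y → b x = i → b y = i + 1 → cc x = cc y := by
    intro x y hxy hx hy
    have h1 := H.mono x y hxy
    have h2 := H.mono' x y hxy
    have h3 := H.le x
    have h4 := H.le y
    have hadj : (levelGraph H i).Adj x y := by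
      rw [levelGraph, SimpleGraph.fromRel_adj]
      refine ⟨hxy.ne, Or.inl ⟨hxy, ?_⟩⟩
      simp only [b] at hx hy
      split_ifs at hx hy <;> omega
    exact SimpleGraph.ConnectedComponent.sound hadj.reachable
  have hmem : ∀ S, mk (c S) (hck S) ∈ AntiCol α k := by
    intro S x y hxy hle
    by_contra hne
    have hlt : x < y := lt_of_le_of_ne hle hne
    have hb := hbm x y hlt
    have h2 : c S x = c S y := congrArg Fin.val hxy
    by_cases hc : cc x = cc y
    · simp only [c, hc] at h2
      split_ifs at h2 <;> omega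
    · have hno : ¬ (b x = i ∧ b y = i + 1) := fun h => hc (hadj x y hlt h.1 h.2)
      simp only [c] at h2
      split_ifs at h2 <;> omega
  refine not_countable_of_injection (β := 𝒞) (fun S => mk (c S) (hck S)) ?_ hmem
  intro S S' hSS
  ext C
  obtain ⟨x, hx1, hx2, hx3⟩ := C.2
  have h1 : c S x = c S' x := congrArg Fin.val (congrFun hSS x)
  have hbx : b x = i := by
    simp only [b]
    split_ifs <;> omega
  have key : ∀ S : Set 𝒞, c S x = if C ∈ S then i + 1 else i := by
    intro S
    have hiff : (∃ D : 𝒞, D ∈ S ∧ cc x = D.1) ↔ C ∈ S := by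
      constructor
      · rintro ⟨D, hD, hxD⟩
        have : D = C := Subtype.ext (hxD.symm.trans hx3)
        exact this ▸ hD
      · exact fun h => ⟨C, h, hx3⟩
    simp only [c]
    by_cases hC : C ∈ S
    · rw [if_pos (hiff.2 hC), if_pos hC, if_pos hbx]
    · rw [if_neg (fun h => hC (hiff.1 h)), if_neg hC, hbx]
  rw [key, key] at h1
  by_cases ht : C ∈ S <;> by_cases ht' : C ∈ S' <;> simp [ht, ht'] at h1 ⊢

/-- the sets `Dn` are constant along components -/
theorem Dn_eq_of_adj (H : Heights α k) {f : α → Fin k} (hf : f ∈ AntiCol α k) {x y : α}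
    (hxy : x < y) (hx : H.h x + H.h' x + 1 = k) (hy : H.h y + H.h' y + 1 = k)
    (h1 : H.h y = H.h x + 1) : Dn f x = (Up f y)ᶜ := by
  classical
  have hd := disj_Dn_Up hf hxy
  have hc1 := card_Dn hf H.pred (H.h x) x rfl
  have hc2 := card_Up hf H.succ (H.h' y) y rfl
  have hsub : Dn f x ⊆ (Up f y)ᶜ := by
    intro c hc
    rw [Finset.mem_compl]
    exact Finset.disjoint_left.1 hd hc
  refine Finset.eq_of_subset_of_card_le hsub ?_
  rw [Finset.card_compl, Fintype.card_fin]
  omega

theorem Dn_const (H : Heights α k) {f : α → Fin k} (hf : f ∈ AntiCol α k) (i : ℕ) {x y : α}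
    (hxy : (levelGraph H i).connectedComponentMk x = (levelGraph H i).connectedComponentMk y)
    (hx : H.h x = i) (hy : H.h y = i) : Dn f x = Dn f y := by
  classical
  let φ : α → Finset (Fin k) := fun z => if H.h z = i then Dn f z else (Up f z)ᶜ
  have hφ : ∀ z w, (levelGraph H i).Adj z w → φ z = φ w := by
    have key : ∀ z w, (z < w ∧ H.h z = i ∧ H.h w = i + 1 ∧
        H.h z + H.h' z + 1 = k ∧ H.h w + H.h' w + 1 = k) → φ z = φ w := by
      rintro z w ⟨h1, h2, h3, h4, h5⟩
      simp only [φ]
      rw [if_pos h2, if_neg (by omega)]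
      exact Dn_eq_of_adj H hf h1 h4 h5 (by omega)
    intro z w hzw
    rw [levelGraph, SimpleGraph.fromRel_adj] at hzw
    rcases hzw.2 with h | h
    · exact key z w h
    · exact (key w z h).symm
  have hr : (levelGraph H i).Reachable x y := SimpleGraph.ConnectedComponent.exact hxy
  have : φ x = φ y := by
    obtain ⟨w⟩ := hr
    clear hx hy hxy
    induction w with
    | nil => rfl
    | cons h _ ih => exact (hφ _ _ h).trans ih
  simpa only [φ, if_pos hx, if_pos hy] using this

theorem finite_of_finite (H : Heights α k) (hS : {x : α | H.h x + H.h' x + 1 ≠ k}.Finite)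
    (hC : ∀ i, i + 1 < k → {C : (levelGraph H i).ConnectedComponent | ∃ x, H.h x = i ∧
      H.h x + H.h' x + 1 = k ∧ (levelGraph H i).connectedComponentMk x = C}.Finite) :
    (AntiCol α k).Finite := by
  classical
  let 𝒞 : (i : Fin (k - 1)) → Set (levelGraph H i.1).ConnectedComponent := fun i =>
    {C : (levelGraph H i.1).ConnectedComponent | ∃ x, H.h x = i.1 ∧
      H.h x + H.h' x + 1 = k ∧ (levelGraph H i.1).connectedComponentMk x = C}
  have : ∀ i, Finite (𝒞 i) := fun i => (hC i.1 (by have := i.2; omega)).to_subtype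
  let S : Set α := {x : α | H.h x + H.h' x + 1 ≠ k}
  have : Finite S := hS.to_subtype
  let Ψ : AntiCol α k → (((i : Fin (k - 1)) → 𝒞 i → Finset (Fin k)) × (S → Fin k)) := fun f =>
    (fun i C => Dn f.1 (C.2.choose), fun s => f.1 s.1)
  have hinj : Function.Injective Ψ := by
    rintro ⟨f, hf⟩ ⟨g, hg⟩ hfg
    have hfg1 : ∀ (i : Fin (k - 1)) (C : 𝒞 i), Dn f (C.2.choose) = Dn g (C.2.choose) :=
      fun i C => congrFun (congrFun (congrArg Prod.fst hfg) i) C
    have hfg2 : ∀ s : S, f s.1 = g s.1 := fun s => congrFun (congrArg Prod.snd hfg) s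
    have hD : ∀ x, H.h x + H.h' x + 1 = k → Dn f x = Dn g x := by
      intro x hx
      by_cases htop : H.h x + 1 = k
      · have e : ∀ q ∈ AntiCol α k, Dn q x = Finset.univ := by
          intro q hq
          have := card_Dn hq H.pred (H.h x) x rfl
          apply Finset.eq_univ_of_card
          rw [Fintype.card_fin]
          have h2 : (Dn q x).card ≤ k := by simpa using Finset.card_le_univ (Dn q x)
          omega
        rw [e f hf, e g hg]
      · have hlt : H.h x < k - 1 := by omega
        let i : Fin (k - 1) := ⟨H.h x, hlt⟩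
        let C : 𝒞 i := ⟨(levelGraph H i.1).connectedComponentMk x, x, rfl, hx, rfl⟩
        have hsp := C.2.choose_spec
        rw [Dn_const H hf i.1 hsp.2.2.symm rfl hsp.1, Dn_const H hg i.1 hsp.2.2.symm rfl hsp.1]
        exact hfg1 i C
    have hU : ∀ x, H.h x + H.h' x + 1 = k → Up f x = Up g x := by
      intro x hx
      by_cases h0 : H.h x = 0
      · have e : ∀ q ∈ AntiCol α k, Up q x = Finset.univ := by
          intro q hq
          have := card_Up hq H.succ (H.h' x) x rfl
          apply Finset.eq_univ_of_card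
          rw [Fintype.card_fin]
          have h2 : (Up q x).card ≤ k := by simpa using Finset.card_le_univ (Up q x)
          omega
        rw [e f hf, e g hg]
      · obtain ⟨y, hyx, hy⟩ := H.pred x h0
        have h1 := H.mono' y x hyx
        have h2 := H.le y
        have hy' : H.h y + H.h' y + 1 = k := by omega
        have e : ∀ q ∈ AntiCol α k, Up q x = (Dn q y)ᶜ := by
          intro q hq
          rw [Dn_eq_of_adj H hq hyx hy' hx hy.symm, compl_compl]
        rw [e f hf, e g hg, hD y hy']
    apply Subtype.ext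
    funext x
    by_cases hx : H.h x + H.h' x + 1 = k
    · apply Dn_inter_Up hg (x := x)
      · rw [← hD x hx]; exact mem_Dn.2 ⟨x, le_rfl, rfl⟩
      · rw [← hU x hx]; exact mem_Up.2 ⟨x, le_rfl, rfl⟩
    · exact hfg2 ⟨x, hx⟩
  have : Finite (AntiCol α k) := Finite.of_injective Ψ hinj
  exact Set.toFinite _

theorem anti_dichotomy (α : Type*) [PartialOrder α] (k : ℕ) :
    (AntiCol α k).Finite ∨ ¬ (AntiCol α k).Countable := by
  classical
  by_cases hne : (AntiCol α k).Nonempty
  · obtain ⟨f, hf⟩ := hne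
    obtain ⟨H⟩ := exists_heights hf
    by_cases hS : {x : α | H.h x + H.h' x + 1 ≠ k}.Finite
    · by_cases hC : ∀ i, i + 1 < k → {C : (levelGraph H i).ConnectedComponent | ∃ x, H.h x = i ∧
        H.h x + H.h' x + 1 = k ∧ (levelGraph H i).connectedComponentMk x = C}.Finite
      · exact Or.inl (finite_of_finite H hS hC)
      · push Not at hC
        obtain ⟨i, hik, hi⟩ := hC
        exact Or.inr (uncountable_of_components H i hik hi)
    · exact Or.inr (uncountable_of_slack H hS)
  · left
    rw [Set.not_nonempty_iff_eq_empty.1 hne]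
    exact Set.finite_empty

end dichotomy

end Pool.Agent.H.MP_233b81_lc
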