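import Mathlib

/-!
Dilworth's theorem (finite and infinite form), for an explicit partial order relation.
-/

namespace Pool.Agent.H.MP_233b81_lc

/-- an explicit partial order relation -/
structure PO {α : Type*} (r : α → α → Prop) : Prop where
  refl : ∀ x, r x x
  antisymm : ∀ x y, r x y → r y x → x = y
  trans : ∀ x y z, r x y → r y z → r x z

/-- a finite set of pairwise incomparable elements -/
def Anti {α : Type*} (r : α → α → Prop) (T : Finset α) : Prop :=
  ∀ x ∈ T, ∀ y ∈ T, r x y → x = y

theorem Anti.mono {α : Type*} {r : α → α → Prop} {S T : Finset α} (h : Anti r T) (hST : S ⊆ T) :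
    Anti r S := fun x hx y hy => h x (hST hx) y (hST hy)

/-- a colouring by colours below `n` of the elements of `s` whose colour classes are chains -/
def IsCover {α : Type*} (r : α → α → Prop) (s : Set α) (n : ℕ) (f : α → ℕ) : Prop :=
  (∀ x ∈ s, f x < n) ∧ ∀ x ∈ s, ∀ y ∈ s, f x = f y → r x y ∨ r y x

/-- in a finite set there is a maximal element -/
theorem exists_maximal {α : Type*} {r : α → α → Prop} (hr : PO r) (s : Finset α)
    (hs : s.Nonempty) : ∃ a ∈ s, ∀ x ∈ s, r a x → x = a := by
  classical
  induction hs using Finset.Nonempty.cons_induction with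
  | singleton a => exact ⟨a, by simp, by simp⟩
  | cons a s ha hs ih =>
    obtain ⟨b, hb, hmax⟩ := ih
    by_cases hba : r b a
    · refine ⟨a, by simp, ?_⟩
      intro x hx hax
      rcases Finset.mem_cons.1 hx with rfl | hx
      · rfl
      · have h1 := hmax x hx (hr.trans _ _ _ hba hax)
        subst h1
        exact hr.antisymm _ _ hba hax
    · refine ⟨b, by simp [hb], ?_⟩
      intro x hx hbx
      rcases Finset.mem_cons.1 hx with rfl | hx
      · exact absurd hbx hba
      · exact hmax x hx hbx

/-- in a finite nonempty chain there is a greatest element -/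
theorem exists_greatest {α : Type*} {r : α → α → Prop} (hr : PO r) (s : Finset α)
    (hs : s.Nonempty) (hc : ∀ x ∈ s, ∀ y ∈ s, r x y ∨ r y x) : ∃ a ∈ s, ∀ x ∈ s, r x a := by
  obtain ⟨a, ha, hmax⟩ := exists_maximal hr s hs
  refine ⟨a, ha, fun x hx => ?_⟩
  rcases hc x hx a ha with h | h
  · exact h
  · rw [hmax x hx h]; exact hr.refl _

/-- Dilworth's theorem for finite sets (Galvin's proof). -/
theorem dilworth_finite {α : Type*} {r : α → α → Prop} (hr : PO r) :
    ∀ (m : ℕ) (s : Finset α), s.card = m → ∀ n : ℕ, (∀ T ⊆ s, Anti r T → T.card ≤ n) →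
      ∃ f : α → ℕ, IsCover r s n f := by
  classical
  intro m
  induction m using Nat.strong_induction_on with
  | _ m ih =>
  intro s hsm n hn
  rcases s.eq_empty_or_nonempty with rfl | hs
  · exact ⟨fun _ => 0, by simp, by simp⟩
  obtain ⟨a, has, hamax⟩ := exists_maximal hr s hs
  set s' := s.erase a with hs'
  have hcard' : s'.card < m := by
    rw [← hsm]; exact Finset.card_erase_lt_of_mem has
  -- the width of s'
  obtain ⟨A₀, hA₀s, hA₀a, hA₀max⟩ : ∃ A₀ ⊆ s', Anti r A₀ ∧
      ∀ T ⊆ s', Anti r T → T.card ≤ A₀.card := by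
    have hne : (s'.powerset.filter (fun T => Anti r T)).Nonempty :=
      ⟨∅, by
        rw [Finset.mem_filter, Finset.mem_powerset]
        exact ⟨Finset.empty_subset _, fun x hx => absurd hx (Finset.notMem_empty x)⟩⟩
    obtain ⟨A₀, hA₀, hmax⟩ := Finset.exists_max_image _ Finset.card hne
    rw [Finset.mem_filter, Finset.mem_powerset] at hA₀
    refine ⟨A₀, hA₀.1, hA₀.2, fun T hT hTa => ?_⟩
    exact hmax T (by rw [Finset.mem_filter, Finset.mem_powerset]; exact ⟨hT, hTa⟩)
  set w := A₀.card with hw
  have hwn : w ≤ n := hn A₀ (hA₀s.trans (Finset.erase_subset _ _)) hA₀a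
  obtain ⟨f, hf1, hf2⟩ := ih s'.card hcard' s' rfl w hA₀max
  -- every w-antichain meets every colour
  have hmeet : ∀ A ⊆ s', Anti r A → A.card = w → ∀ i < w, ∃ x ∈ A, f x = i := by
    intro A hA hAa hAw i hi
    have hinj : Set.InjOn f A := by
      intro x hx y hy hxy
      rcases hf2 x (hA hx) y (hA hy) hxy with h | h
      · exact hAa x hx y hy h
      · exact (hAa y hy x hx h).symm
    have himg : A.image f = Finset.range w := by
      apply Finset.eq_of_subset_of_card_le
      · intro j hj
        obtain ⟨x, hx, rfl⟩ := Finset.mem_image.1 hj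
        exact Finset.mem_range.2 (hf1 x (hA hx))
      · rw [Finset.card_image_of_injOn hinj, Finset.card_range, hAw]
    have : i ∈ A.image f := by rw [himg]; exact Finset.mem_range.2 hi
    obtain ⟨x, hx, hxi⟩ := Finset.mem_image.1 this
    exact ⟨x, hx, hxi⟩
  -- the elements of colour i lying in a w-antichain
  let M : ℕ → Finset α := fun i => s'.filter (fun x => f x = i ∧ ∃ A ⊆ s', Anti r A ∧
    A.card = w ∧ x ∈ A)
  have hM : ∀ i < w, ∃ a ∈ M i, ∀ x ∈ M i, r x a := by
    intro i hi
    apply exists_greatest hr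
    · obtain ⟨x, hx, hxi⟩ := hmeet A₀ hA₀s hA₀a rfl i hi
      exact ⟨x, by
        simp only [M, Finset.mem_filter]
        exact ⟨hA₀s hx, hxi, A₀, hA₀s, hA₀a, rfl, hx⟩⟩
    · intro x hx y hy
      simp only [M, Finset.mem_filter] at hx hy
      exact hf2 x hx.1 y hy.1 (hx.2.1.trans hy.2.1.symm)
  have hM' : ∀ i : Fin w, ∃ a ∈ M i.1, ∀ x ∈ M i.1, r x a := fun i => hM i.1 i.2
  choose t ht1 ht2 using hM'
  have htp : ∀ i : Fin w, t i ∈ s' ∧ f (t i) = i.1 ∧ ∃ A ⊆ s', Anti r A ∧
      A.card = w ∧ t i ∈ A := by
    intro i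
    have := ht1 i
    simpa only [M, Finset.mem_filter] using this
  have htanti : ∀ i j : Fin w, r (t j) (t i) → i = j := by
    intro i j hij
    obtain ⟨h1, h2, A, hA, hAa, hAw, htA⟩ := htp i
    obtain ⟨x, hx, hxj⟩ := hmeet A hA hAa hAw j.1 j.2
    have hxM : x ∈ M j.1 := by
      simp only [M, Finset.mem_filter]
      exact ⟨hA hx, hxj, A, hA, hAa, hAw, hx⟩
    have h3 : r x (t i) := hr.trans _ _ _ (ht2 j x hxM) hij
    have h4 := hAa x hx (t i) htA h3
    apply Fin.ext
    rw [← h2, ← hxj, h4]
  have htinj : Function.Injective t := by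
    intro i j hij
    exact htanti i j (by rw [hij]; exact hr.refl _)
  by_cases hcase : ∃ i : Fin w, r (t i) a
  · obtain ⟨i, hi⟩ := hcase
    set K := s.filter (fun x => x = a ∨ (f x = i.1 ∧ r x (t i) ∧ x ∈ s')) with hK
    have hKa : a ∈ K := by rw [hK, Finset.mem_filter]; exact ⟨has, Or.inl rfl⟩
    have hle : ∀ x ∈ K, r x a := by
      intro x hx
      rw [hK, Finset.mem_filter] at hx
      rcases hx.2 with rfl | ⟨_, h, _⟩
      · exact hr.refl _
      · exact hr.trans _ _ _ h hi
    have hcardK : (s \ K).card < m := by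
      rw [← hsm]
      apply Finset.card_lt_card
      rw [Finset.ssubset_iff_of_subset Finset.sdiff_subset]
      exact ⟨a, has, fun h => (Finset.mem_sdiff.1 h).2 hKa⟩
    have hw1 : ∀ T ⊆ s \ K, Anti r T → T.card ≤ w - 1 := by
      intro T hT hTa
      have hTs' : T ⊆ s' := by
        intro x hx
        have h1 := Finset.mem_sdiff.1 (hT hx)
        rw [hs', Finset.mem_erase]
        refine ⟨?_, h1.1⟩
        rintro rfl
        exact h1.2 hKa
      have h1 := hA₀max T hTs' hTa
      by_contra hlt
      have hTw : T.card = w := by omega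
      obtain ⟨x, hx, hxi⟩ := hmeet T hTs' hTa hTw i.1 i.2
      have hxM : x ∈ M i.1 := by
        simp only [M, Finset.mem_filter]
        exact ⟨hTs' hx, hxi, T, hTs', hTa, hTw, hx⟩
      have h2 := Finset.mem_sdiff.1 (hT hx)
      apply h2.2
      rw [hK, Finset.mem_filter]
      exact ⟨h2.1, Or.inr ⟨hxi, ht2 i x hxM, hTs' hx⟩⟩
    obtain ⟨f', hf'1, hf'2⟩ := ih (s \ K).card hcardK (s \ K) rfl (w - 1) hw1
    have hw0 : 0 < w := lt_of_le_of_lt (Nat.zero_le _) i.2
    refine ⟨fun x => if x ∈ K then w - 1 else f' x, ?_, ?_⟩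
    · intro x hx
      by_cases hxK : x ∈ K
      · simp only [hxK, if_true]; omega
      · simp only [hxK, if_false]
        have := hf'1 x (by
          rw [Finset.coe_sdiff]; exact ⟨hx, hxK⟩)
        omega
    · intro x hx y hy hxy
      by_cases hxK : x ∈ K <;> by_cases hyK : y ∈ K
      · -- both in K
        have hx' := hxK
        have hy' := hyK
        rw [hK, Finset.mem_filter] at hx' hy'
        rcases hx'.2 with rfl | ⟨hx1, _, hx3⟩
        · exact Or.inr (hle y hyK)
        · rcases hy'.2 with rfl | ⟨hy1, _, hy3⟩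
          · exact Or.inl (hle x hxK)
          · exact hf2 x hx3 y hy3 (hx1.trans hy1.symm)
      · simp only [hxK, hyK, if_true, if_false] at hxy
        have := hf'1 y (by rw [Finset.coe_sdiff]; exact ⟨hy, hyK⟩)
        omega
      · simp only [hxK, hyK, if_true, if_false] at hxy
        have := hf'1 x (by rw [Finset.coe_sdiff]; exact ⟨hx, hxK⟩)
        omega
      · simp only [hxK, hyK, if_false] at hxy
        exact hf'2 x (by rw [Finset.coe_sdiff]; exact ⟨hx, hxK⟩) y
          (by rw [Finset.coe_sdiff]; exact ⟨hy, hyK⟩) hxy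
  · push Not at hcase
    -- t together with a is an antichain
    have hanti : Anti r (insert a (Finset.univ.image t)) := by
      intro x hx y hy hxy
      rw [Finset.mem_insert, Finset.mem_image] at hx hy
      rcases hx with rfl | ⟨i, -, rfl⟩
      · rcases hy with rfl | ⟨j, -, rfl⟩
        · rfl
        · exact (hamax _ (Finset.mem_of_mem_erase (htp j).1) hxy).symm
      · rcases hy with rfl | ⟨j, -, rfl⟩
        · exact absurd hxy (hcase i)
        · rw [htanti j i hxy]
    have hnot : a ∉ Finset.univ.image t := by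
      intro h
      obtain ⟨i, -, hi⟩ := Finset.mem_image.1 h
      have := (htp i).1
      rw [hi, hs'] at this
      exact absurd this (Finset.notMem_erase _ _)
    have hw1 : w + 1 ≤ n := by
      have h1 := hn (insert a (Finset.univ.image t)) (by
        intro x hx
        rw [Finset.mem_insert, Finset.mem_image] at hx
        rcases hx with rfl | ⟨i, -, rfl⟩
        · exact has
        · exact Finset.mem_of_mem_erase (htp i).1) hanti
      rw [Finset.card_insert_of_notMem hnot, Finset.card_image_of_injective _ htinj,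
        Finset.card_univ, Fintype.card_fin] at h1
      exact h1
    refine ⟨fun x => if x = a then w else f x, ?_, ?_⟩
    · intro x hx
      by_cases hxa : x = a
      · simp only [hxa, if_true]; omega
      · simp only [hxa, if_false]
        have := hf1 x (by rw [hs', Finset.coe_erase]; exact ⟨hx, hxa⟩)
        omega
    · intro x hx y hy hxy
      by_cases hxa : x = a <;> by_cases hya : y = a
      · subst hxa; subst hya; exact Or.inl (hr.refl _)
      · simp only [hxa, hya, if_true, if_false] at hxy
        have := hf1 y (by rw [hs', Finset.coe_erase]; exact ⟨hy, hya⟩)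
        omega
      · simp only [hxa, hya, if_true, if_false] at hxy
        have := hf1 x (by rw [hs', Finset.coe_erase]; exact ⟨hx, hxa⟩)
        omega
      · simp only [hxa, hya, if_false] at hxy
        exact hf2 x (by rw [hs', Finset.coe_erase]; exact ⟨hx, hxa⟩) y
          (by rw [hs', Finset.coe_erase]; exact ⟨hy, hya⟩) hxy

/-- Dilworth's theorem for arbitrary sets of finite width. -/
theorem dilworth {α : Type*} {r : α → α → Prop} (hr : PO r) (B : Set α) (n : ℕ)
    (hn : ∀ T : Finset α, (T : Set α) ⊆ B → Anti r T → T.card ≤ n) :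
    ∃ f : α → ℕ, IsCover r B n f := by
  classical
  have hfin : ∀ F : Finset α, ∃ f : α → ℕ, IsCover r (F.filter (· ∈ B) : Finset α) n f := by
    intro F
    apply dilworth_finite hr _ _ rfl
    intro T hT hTa
    apply hn T _ hTa
    intro x hx
    exact (Finset.mem_filter.1 (hT hx)).2
  choose f hf using hfin
  let m : α → Finset α → Fin (n + 1) := fun x F =>
    if h : f F x < n then ⟨f F x, by omega⟩ else ⟨n, by omega⟩
  let U : Ultrafilter (Finset α) := Ultrafilter.of Filter.atTop
  have hU : ∀ x, ∃ v : Fin (n + 1), ∀ᶠ F in (U : Filter (Finset α)), m x F = v := by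
    intro x
    obtain ⟨v, hv⟩ := (U.map (m x)).eq_pure_of_finite
    refine ⟨v, ?_⟩
    have : ({v} : Set (Fin (n + 1))) ∈ U.map (m x) := by rw [hv]; exact Set.mem_singleton v
    exact this
  choose v hv using hU
  have hmem : ∀ x, ∀ᶠ F in (U : Filter (Finset α)), x ∈ F := by
    intro x
    have h1 : ∀ᶠ F in (Filter.atTop : Filter (Finset α)), x ∈ F := by
      filter_upwards [Filter.eventually_ge_atTop {x}] with F hF
      exact hF (Finset.mem_singleton_self x)
    exact (Ultrafilter.of_le _) h1
  refine ⟨fun x => (v x).1, ?_, ?_⟩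
  · intro x hx
    obtain ⟨F, hF1, hF2⟩ := ((hv x).and (hmem x)).exists
    have h1 := (hf F).1 x (by simp [hF2, hx])
    change (v x).1 < n
    rw [← hF1]
    simp only [m, h1, dif_pos]
  · intro x hx y hy hxy
    obtain ⟨F, ⟨hF1, hF2⟩, hF3, hF4⟩ :=
      (((hv x).and (hmem x)).and ((hv y).and (hmem y))).exists
    have h1 := (hf F).1 x (by simp [hF2, hx])
    have h2 := (hf F).1 y (by simp [hF4, hy])
    apply (hf F).2 x (by simp [hF2, hx]) y (by simp [hF4, hy])
    have h3 : m x F = m y F := by
      rw [hF1, hF3]; exact Fin.ext hxy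
    simpa only [m, h1, h2, dif_pos, Fin.mk.injEq] using h3

end Pool.Agent.H.MP_233b81_lc
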