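import Mathlib
import Pool.Agent.H.MP_233b81_lc.Anti
import Pool.Agent.H.MP_233b81_lc.Dilworth

/-!
Dichotomy for decompositions of a countable poset into `k` chains: finitely many or uncountably
many.
-/

namespace Pool.Agent.H.MP_233b81_lc

/-- maps to `k` colours all of whose fibres are chains -/
def ChainCol {α : Type*} (r : α → α → Prop) (k : ℕ) : Set (α → Fin k) :=
  {f | ∀ x y, f x = f y → r x y ∨ r y x}

/-- the colourings agreeing with `g` on `F` -/
def Nb {α : Type*} (r : α → α → Prop) (k : ℕ) (F : Finset α) (g : α → Fin k) :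
    Set (α → Fin k) :=
  {f | f ∈ ChainCol r k ∧ ∀ x ∈ F, f x = g x}

theorem uncountable_of_noncore {α : Type*} {r : α → α → Prop} (hr : PO r) {k : ℕ}
    {g : α → Fin k} (hg : g ∈ ChainCol r k)
    (hN : {x | ¬ ∃ T : Finset α, Anti r T ∧ T.card = k ∧ x ∈ T}.Infinite) :
    ¬ (ChainCol r k).Countable := by
  classical
  set NC : Set α := {x | ¬ ∃ T : Finset α, Anti r T ∧ T.card = k ∧ x ∈ T} with hNC
  have : Infinite NC := hN.to_subtype
  obtain ⟨i, hi⟩ := Finite.exists_infinite_fiber (fun x : NC => g x.1)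
  set X := (fun x : NC => g x.1) ⁻¹' {i} with hX
  have : Infinite X := hi
  have hXi : ∀ x : X, g x.1.1 = i := fun x => x.2
  have hk : 0 < k := lt_of_le_of_lt (Nat.zero_le _) i.2
  let B : Set α := {x | g x ≠ i ∨ x ∈ NC}
  have hwidth : ∀ T : Finset α, (T : Set α) ⊆ B → Anti r T → T.card ≤ k - 1 := by
    intro T hT hTa
    have hinj : Set.InjOn g T := by
      intro x hx y hy hxy
      rcases hg x y hxy with h | h
      · exact hTa x hx y hy h
      · exact (hTa y hy x hx h).symm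
    have h1 : (T.image g).card = T.card := Finset.card_image_of_injOn hinj
    have h2 : (T.image g).card ≤ k := by simpa using Finset.card_le_univ (T.image g)
    by_contra hlt
    have hTk : T.card = k := by omega
    have himg : T.image g = Finset.univ := by
      apply Finset.eq_univ_of_card
      rw [h1, hTk, Fintype.card_fin]
    have : i ∈ T.image g := by rw [himg]; exact Finset.mem_univ _
    obtain ⟨x, hx, hxi⟩ := Finset.mem_image.1 this
    rcases hT hx with h | h
    · exact h hxi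
    · exact h ⟨T, hTa, hTk, hx⟩
  obtain ⟨f', hf1, hf2⟩ := dilworth hr B (k - 1) hwidth
  let c : Set X → α → Fin k := fun S x =>
    if h : x ∈ B ∧ ¬ ∃ y : X, y ∈ S ∧ y.1.1 = x then ⟨f' x, by have := hf1 x h.1; omega⟩
    else ⟨k - 1, by omega⟩
  refine not_countable_of_injection (β := X) c ?_ ?_
  · intro S S' hSS
    have key : ∀ (S : Set X) (x : X), x ∈ S ↔ (c S x.1.1).1 = k - 1 := by
      intro S x
      have hxB : x.1.1 ∈ B := Or.inr x.1.2
      have hiff : (∃ y : X, y ∈ S ∧ y.1.1 = x.1.1) ↔ x ∈ S := by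
        constructor
        · rintro ⟨y, hy, hyx⟩
          have : y = x := Subtype.ext (Subtype.ext hyx)
          exact this ▸ hy
        · exact fun h => ⟨x, h, rfl⟩
      constructor
      · intro hx
        simp only [c]
        rw [dif_neg (fun h => h.2 (hiff.2 hx))]
      · intro hx
        by_contra hxS
        simp only [c] at hx
        rw [dif_pos ⟨hxB, fun h => hxS (hiff.1 h)⟩] at hx
        have := hf1 _ hxB
        simp only at hx
        omega
    ext x
    rw [key, key, hSS]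
  · intro S x y hxy
    have hlast : ∀ z, ¬ (z ∈ B ∧ ¬ ∃ y : X, y ∈ S ∧ y.1.1 = z) → g z = i := by
      intro z hz
      by_contra hne
      apply hz
      refine ⟨Or.inl hne, ?_⟩
      rintro ⟨y, -, hy⟩
      exact hne (by rw [← hy]; exact hXi y)
    simp only [c] at hxy
    by_cases h1 : x ∈ B ∧ ¬ ∃ y : X, y ∈ S ∧ y.1.1 = x <;>
    by_cases h2 : y ∈ B ∧ ¬ ∃ z : X, z ∈ S ∧ z.1.1 = y
    · rw [dif_pos h1, dif_pos h2, Fin.mk.injEq] at hxy
      exact hf2 x h1.1 y h2.1 hxy
    · rw [dif_pos h1, dif_neg h2, Fin.mk.injEq] at hxy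
      have := hf1 x h1.1
      omega
    · rw [dif_neg h1, dif_pos h2, Fin.mk.injEq] at hxy
      have := hf1 y h2.1
      omega
    · exact hg x y ((hlast x h1).trans (hlast y h2).symm)

/-- In an infinite countable class there is a rank one accumulation point. -/
theorem exists_rank_one {α : Type*} [Countable α] {r : α → α → Prop} {k : ℕ}
    (hinf : (ChainCol r k).Infinite) (hc : (ChainCol r k).Countable) :
    ∃ (F : Finset α) (g : α → Fin k), g ∈ ChainCol r k ∧ (Nb r k F g).Infinite ∧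
      ∀ a, {f | f ∈ Nb r k F g ∧ f a ≠ g a}.Finite := by
  classical
  by_contra H
  push Not at H
  have hne : Nonempty α := by
    by_contra he
    rw [not_nonempty_iff] at he
    exact hinf (Set.toFinite _)
  obtain ⟨a, ha⟩ := exists_surjective_nat α
  obtain ⟨q, hq⟩ := hc.exists_eq_range hinf.nonempty
  -- extension lemma
  have pig : ∀ (S : Set (α → Fin k)) (x : α), S.Infinite → ∃ v, {f | f ∈ S ∧ f x = v}.Infinite := by
    intro S x hS
    have : Infinite S := hS.to_subtype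
    obtain ⟨v, hv⟩ := Finite.exists_infinite_fiber (fun f : S => f.1 x)
    refine ⟨v, ?_⟩
    have : Infinite ((fun f : S => f.1 x) ⁻¹' {v}) := hv
    have h2 : (Subtype.val '' ((fun f : S => f.1 x) ⁻¹' {v})).Infinite :=
      (Set.infinite_coe_iff.1 this).image (Subtype.val_injective.injOn)
    refine h2.mono ?_
    rintro _ ⟨f, hf, rfl⟩
    exact ⟨f.2, hf⟩
  have ext1 : ∀ (F : Finset α) (φ : α → Fin k) (x : α), (Nb r k F φ).Infinite →
      ∃ φ' ∈ Nb r k F φ, (Nb r k (insert x F) φ').Infinite := by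
    intro F φ x hN
    obtain ⟨v, hv⟩ := pig _ x hN
    obtain ⟨φ', hφ'⟩ := hv.nonempty
    refine ⟨φ', hφ'.1, hv.mono ?_⟩
    rintro f ⟨hf1, hf2⟩
    refine ⟨hf1.1, ?_⟩
    intro y hy
    rcases Finset.mem_insert.1 hy with rfl | hy
    · rw [hf2]; exact hφ'.2.symm
    · rw [hf1.2 y hy]; exact (hφ'.1.2 y hy).symm
  have ext2 : ∀ (F : Finset α) (φ : α → Fin k) (n : ℕ), (Nb r k F φ).Infinite →
      ∃ F' : Finset α, F ⊆ F' ∧ ∃ φ' ∈ Nb r k F φ, (Nb r k F' φ').Infinite ∧
        ∃ x ∈ F', φ' x ≠ q n x := by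
    intro F φ n hN
    have hqn : q n ∈ ChainCol r k := by rw [hq]; exact ⟨n, rfl⟩
    by_cases h : ∀ x ∈ F, q n x = φ x
    · have hNb : Nb r k F (q n) = Nb r k F φ := by
        ext f
        constructor
        · rintro ⟨h1, h2⟩; exact ⟨h1, fun x hx => (h2 x hx).trans (h x hx)⟩
        · rintro ⟨h1, h2⟩; exact ⟨h1, fun x hx => (h2 x hx).trans (h x hx).symm⟩
      obtain ⟨b, hb⟩ := H F (q n) hqn (by rw [hNb]; exact hN)
      obtain ⟨v, hv⟩ := pig _ b hb
      obtain ⟨φ', ⟨hφ1, hφ2⟩, hφ3⟩ := hv.nonempty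
      refine ⟨insert b F, Finset.subset_insert _ _, φ', by rw [← hNb]; exact hφ1, ?_,
        b, Finset.mem_insert_self _ _, hφ2⟩
      refine hv.mono ?_
      rintro f ⟨⟨hf1, hf2⟩, hf3⟩
      refine ⟨hf1.1, ?_⟩
      intro y hy
      rcases Finset.mem_insert.1 hy with rfl | hy
      · rw [hf3]; exact hφ3.symm
      · rw [hf1.2 y hy]; exact (hφ1.2 y hy).symm
    · push Not at h
      obtain ⟨x, hx, hxq⟩ := h
      obtain ⟨φ', hφ'⟩ := hN.nonempty
      refine ⟨F, Finset.Subset.refl _, φ', hφ', ?_, x, hx, ?_⟩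
      · refine hN.mono ?_
        rintro f ⟨hf1, hf2⟩
        exact ⟨hf1, fun y hy => (hf2 y hy).trans (hφ'.2 y hy).symm⟩
      · rw [hφ'.2 x hx]; exact fun h => hxq h.symm
  -- combined step
  let St := {p : Finset α × (α → Fin k) // (Nb r k p.1 p.2).Infinite ∧ p.2 ∈ ChainCol r k}
  have step : ∀ (s : St) (n : ℕ), ∃ s' : St, s.1.1 ⊆ s'.1.1 ∧ (∀ x ∈ s.1.1, s'.1.2 x = s.1.2 x) ∧
      a n ∈ s'.1.1 ∧ ∃ x ∈ s'.1.1, s'.1.2 x ≠ q n x := by
    rintro ⟨⟨F, φ⟩, hN, hφ⟩ n
    obtain ⟨F', hFF', φ', hφ'1, hφ'2, x, hx, hxq⟩ := ext2 F φ n hN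
    obtain ⟨φ'', hφ''1, hφ''2⟩ := ext1 F' φ' (a n) hφ'2
    refine ⟨⟨(insert (a n) F', φ''), hφ''2, hφ''1.1⟩, ?_, ?_, ?_, ?_⟩
    · exact hFF'.trans (Finset.subset_insert _ _)
    · intro y hy
      change φ'' y = φ y
      rw [hφ''1.2 y (hFF' hy), hφ'1.2 y hy]
    · exact Finset.mem_insert_self _ _
    · refine ⟨x, Finset.mem_insert_of_mem hx, ?_⟩
      change φ'' x ≠ q n x
      rw [hφ''1.2 x hx]
      exact hxq
  choose nx hnx1 hnx2 hnx3 hnx4 using step
  obtain ⟨φ₀, hφ₀⟩ := hinf.nonempty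
  have h0 : (Nb r k ∅ φ₀).Infinite := by
    refine hinf.mono ?_
    intro f hf
    exact ⟨hf, by simp⟩
  let s₀ : St := ⟨(∅, φ₀), h0, hφ₀⟩
  let sq : ℕ → St := fun n => Nat.rec s₀ (fun n s => nx s n) n
  have hsq : ∀ n, sq (n + 1) = nx (sq n) n := fun n => rfl
  have hmono : ∀ m n, m ≤ n → (sq m).1.1 ⊆ (sq n).1.1 ∧
      ∀ x ∈ (sq m).1.1, (sq n).1.2 x = (sq m).1.2 x := by
    intro m n hmn
    induction n, hmn using Nat.le_induction with
    | base => exact ⟨Finset.Subset.refl _, fun _ _ => rfl⟩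
    | succ n _ ih =>
      rw [hsq]
      refine ⟨ih.1.trans (hnx1 _ _), fun x hx => ?_⟩
      rw [hnx2 _ _ x (ih.1 hx), ih.2 x hx]
  choose idx hidx using ha
  let g : α → Fin k := fun x => (sq (idx x + 1)).1.2 x
  have hmem : ∀ x, x ∈ (sq (idx x + 1)).1.1 := by
    intro x
    rw [hsq]
    have := hnx3 (sq (idx x)) (idx x)
    rwa [hidx] at this
  have hg : ∀ n x, x ∈ (sq n).1.1 → g x = (sq n).1.2 x := by
    intro n x hx
    rcases le_total n (idx x + 1) with h | h
    · exact (hmono _ _ h).2 x hx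
    · exact ((hmono _ _ h).2 x (hmem x)).symm
  have hgQ : g ∈ ChainCol r k := by
    intro x y hxy
    let n := max (idx x + 1) (idx y + 1)
    have hx : x ∈ (sq n).1.1 := (hmono _ n (le_max_left _ _)).1 (hmem x)
    have hy : y ∈ (sq n).1.1 := (hmono _ n (le_max_right _ _)).1 (hmem y)
    rw [hg n x hx, hg n y hy] at hxy
    exact (sq n).2.2 x y hxy
  rw [hq] at hgQ
  obtain ⟨n, hn⟩ := hgQ
  obtain ⟨x, hx, hxq⟩ := hnx4 (sq n) n
  rw [← hsq] at hx hxq
  apply hxq
  rw [← hg (n + 1) x hx, hn]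

section core

variable {α : Type*} {r : α → α → Prop} {k : ℕ}

/-- a transversal antichain: one element of each `g`-colour, pairwise incomparable -/
def Tr (r : α → α → Prop) (g : α → Fin k) (t : Fin k → α) : Prop :=
  (∀ i, g (t i) = i) ∧ ∀ i j, r (t i) (t j) → i = j

open Classical in
/-- use `f1` below the antichain `t` and `f2` elsewhere -/
noncomputable def hyb (r : α → α → Prop) (g f1 f2 : α → Fin k) (t : Fin k → α) : α → Fin k :=
  fun x => if r x (t (g x)) then f1 x else f2 x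

theorem hyb_pos {g f1 f2 : α → Fin k} {t : Fin k → α} {x : α} (h : r x (t (g x))) :
    hyb r g f1 f2 t x = f1 x := if_pos h

theorem hyb_neg {g f1 f2 : α → Fin k} {t : Fin k → α} {x : α} (h : ¬ r x (t (g x))) :
    hyb r g f1 f2 t x = f2 x := if_neg h

theorem bij_of_tr {g f : α → Fin k} {t : Fin k → α} (ht : Tr r g t) (hf : f ∈ ChainCol r k) :
    Function.Bijective (fun i => f (t i)) := by
  apply Finite.injective_iff_bijective.1
  intro i j hij
  rcases hf _ _ hij with h | h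
  · exact ht.2 i j h
  · exact (ht.2 j i h).symm

theorem hyb_mem (hr : PO r) {g f1 f2 : α → Fin k} {t : Fin k → α} (hg : g ∈ ChainCol r k)
    (h1 : f1 ∈ ChainCol r k) (h2 : f2 ∈ ChainCol r k) (ht : Tr r g t)
    (heq : ∀ i, f1 (t i) = f2 (t i)) : hyb r g f1 f2 t ∈ ChainCol r k := by
  classical
  have hD : ∀ x j, r x (t (g x)) → f1 x = f1 (t j) → r x (t j) := by
    intro x j hx hc
    rcases h1 _ _ hc with h | h
    · exact h
    · have := ht.2 _ _ (hr.trans _ _ _ h hx)
      rw [this]; exact hx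
  have hU : ∀ y j, ¬ r y (t (g y)) → f2 y = f2 (t j) → r (t j) y := by
    intro y j hy hc
    rcases h2 _ _ hc with h | h
    · exfalso
      have hcomp : r (t (g y)) y := by
        rcases hg y (t (g y)) (ht.1 (g y)).symm with h' | h'
        · exact absurd h' hy
        · exact h'
      have := ht.2 _ _ (hr.trans _ _ _ hcomp h)
      rw [← this] at h
      exact hy h
    · exact h
  have hDU : ∀ x y, r x (t (g x)) → ¬ r y (t (g y)) → f1 x = f2 y → r x y := by
    intro x y hx hy hxy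
    obtain ⟨j, hj⟩ := (bij_of_tr ht h1).2 (f1 x)
    simp only at hj
    have h3 := hD x j hx hj.symm
    have h4 := hU y j hy (by rw [← heq, hj, hxy])
    exact hr.trans _ _ _ h3 h4
  intro x y hxy
  by_cases hx : r x (t (g x)) <;> by_cases hy : r y (t (g y))
  · rw [hyb_pos hx, hyb_pos hy] at hxy
    exact h1 x y hxy
  · rw [hyb_pos hx, hyb_neg hy] at hxy
    exact Or.inl (hDU x y hx hy hxy)
  · rw [hyb_neg hx, hyb_pos hy] at hxy
    exact Or.inr (hDU y x hy hx hxy.symm)
  · rw [hyb_neg hx, hyb_neg hy] at hxy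
    exact h2 x y hxy

/-- every nearby colouring fixed on `t` is fixed below `t` -/
def Low (r : α → α → Prop) (F : Finset α) (g : α → Fin k) (t : Fin k → α) : Prop :=
  ∀ f ∈ Nb r k F g, (∀ i, f (t i) = i) → ∀ x, r x (t (g x)) → f x = g x

/-- every nearby colouring fixed on `t` is fixed above `t` -/
def High (r : α → α → Prop) (F : Finset α) (g : α → Fin k) (t : Fin k → α) : Prop :=
  ∀ f ∈ Nb r k F g, (∀ i, f (t i) = i) → ∀ x, r (t (g x)) x → f x = g x

/-- all but finitely many nearby colourings are fixed on a given transversal -/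
theorem finite_moved {F : Finset α} {g : α → Fin k}
    (hU : ∀ a, {f | f ∈ Nb r k F g ∧ f a ≠ g a}.Finite) {t : Fin k → α} (ht : Tr r g t) :
    {f | f ∈ Nb r k F g ∧ ¬ ∀ i, f (t i) = i}.Finite := by
  classical
  have h1 : (⋃ i, {f | f ∈ Nb r k F g ∧ f (t i) ≠ g (t i)}).Finite :=
    Set.finite_iUnion (fun i => hU (t i))
  refine h1.subset ?_
  rintro f ⟨hf1, hf2⟩
  push Not at hf2
  obtain ⟨i, hi⟩ := hf2
  rw [Set.mem_iUnion]
  exact ⟨i, hf1, by rw [ht.1 i]; exact hi⟩

theorem low_or_high (hr : PO r) {F : Finset α} {g : α → Fin k} (hg : g ∈ ChainCol r k)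
    (hN : (Nb r k F g).Infinite) (hU : ∀ a, {f | f ∈ Nb r k F g ∧ f a ≠ g a}.Finite)
    {t : Fin k → α} (ht : Tr r g t) : Low r F g t ∨ High r F g t := by
  classical
  by_contra H
  rw [not_or] at H
  obtain ⟨H1, H2⟩ := H
  unfold Low at H1
  unfold High at H2
  push Not at H1 H2
  obtain ⟨f1, hf1, hf1t, x1, hx1, hfx1⟩ := H1
  obtain ⟨f2, hf2, hf2t, x2, hx2, hfx2⟩ := H2
  have hx2' : ¬ r x2 (t (g x2)) := by
    intro h
    have := hr.antisymm _ _ h hx2
    apply hfx2
    calc f2 x2 = f2 (t (g x2)) := by rw [← this]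
      _ = g x2 := hf2t _
  set E1 := {f | f ∈ Nb r k F g ∧ f x1 ≠ g x1} with hE1
  set E2 := {f | f ∈ Nb r k F g ∧ f x2 ≠ g x2} with hE2
  have : Finite E1 := (hU x1).to_subtype
  have : Finite E2 := (hU x2).to_subtype
  set Nt := {f | f ∈ Nb r k F g ∧ ∀ i, f (t i) = i} with hNt
  have m1 : ∀ f ∈ Nt, hyb r g f1 f t ∈ E1 := by
    intro f hf
    refine ⟨⟨hyb_mem hr hg hf1.1 hf.1.1 ht (fun i => by rw [hf1t, hf.2]), ?_⟩, ?_⟩
    · intro x hx
      by_cases h : r x (t (g x))
      · rw [hyb_pos h]; exact hf1.2 x hx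
      · rw [hyb_neg h]; exact hf.1.2 x hx
    · rw [hyb_pos hx1]; exact hfx1
  have m2 : ∀ f ∈ Nt, hyb r g f f2 t ∈ E2 := by
    intro f hf
    refine ⟨⟨hyb_mem hr hg hf.1.1 hf2.1 ht (fun i => by rw [hf2t, hf.2]), ?_⟩, ?_⟩
    · intro x hx
      by_cases h : r x (t (g x))
      · rw [hyb_pos h]; exact hf.1.2 x hx
      · rw [hyb_neg h]; exact hf2.2 x hx
    · rw [hyb_neg hx2']; exact hfx2
  let Φ : Nt → E1 × E2 := fun f => (⟨_, m1 f.1 f.2⟩, ⟨_, m2 f.1 f.2⟩)
  have hΦ : Function.Injective Φ := by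
    rintro ⟨f, hf⟩ ⟨f', hf'⟩ hff
    have e1 : hyb r g f1 f t = hyb r g f1 f' t := congrArg (fun p => p.1.1) hff
    have e2 : hyb r g f f2 t = hyb r g f' f2 t := congrArg (fun p => p.2.1) hff
    apply Subtype.ext
    funext x
    by_cases h : r x (t (g x))
    · have := congrFun e2 x
      rwa [hyb_pos h, hyb_pos h] at this
    · have := congrFun e1 x
      rwa [hyb_neg h, hyb_neg h] at this
  have hNtf : Finite Nt := Finite.of_injective Φ hΦ
  apply hN
  refine ((Set.toFinite Nt).union (finite_moved hU ht)).subset ?_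
  intro f hf
  by_cases h : ∀ i, f (t i) = i
  · exact Or.inl ⟨hf, h⟩
  · exact Or.inr ⟨hf, h⟩

open Classical in
/-- join of two transversals -/
noncomputable def jn (r : α → α → Prop) (t t' : Fin k → α) : Fin k → α :=
  fun i => if r (t i) (t' i) then t' i else t i

theorem jn_cases (t t' : Fin k → α) (i : Fin k) : jn r t t' i = t i ∨ jn r t t' i = t' i := by
  unfold jn
  split_ifs
  · exact Or.inr rfl
  · exact Or.inl rfl

theorem le_jn (hr : PO r) {g : α → Fin k} (hg : g ∈ ChainCol r k) {t t' : Fin k → α}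
    (ht : Tr r g t) (ht' : Tr r g t') (i : Fin k) :
    r (t i) (jn r t t' i) ∧ r (t' i) (jn r t t' i) := by
  unfold jn
  split_ifs with h
  · exact ⟨h, hr.refl _⟩
  · refine ⟨hr.refl _, ?_⟩
    rcases hg (t i) (t' i) (by rw [ht.1, ht'.1]) with h' | h'
    · exact absurd h' h
    · exact h'

theorem tr_jn (hr : PO r) {g : α → Fin k} (hg : g ∈ ChainCol r k) {t t' : Fin k → α}
    (ht : Tr r g t) (ht' : Tr r g t') : Tr r g (jn r t t') := by
  refine ⟨fun i => ?_, fun i j hij => ?_⟩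
  · rcases jn_cases (r := r) t t' i with h | h
    · rw [h]; exact ht.1 i
    · rw [h]; exact ht'.1 i
  · have h1 := le_jn hr hg ht ht' i
    rcases jn_cases (r := r) t t' j with h | h
    · rw [h] at hij
      exact ht.2 _ _ (hr.trans _ _ _ h1.1 hij)
    · rw [h] at hij
      exact ht'.2 _ _ (hr.trans _ _ _ h1.2 hij)

theorem low_jn (hr : PO r) {F : Finset α} {g : α → Fin k} (hg : g ∈ ChainCol r k)
    (hN : (Nb r k F g).Infinite) (hU : ∀ a, {f | f ∈ Nb r k F g ∧ f a ≠ g a}.Finite)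
    {t t' : Fin k → α} (ht : Tr r g t) (ht' : Tr r g t') (hl : Low r F g t)
    (hl' : Low r F g t') : Low r F g (jn r t t') := by
  classical
  have hs := tr_jn hr hg ht ht'
  rcases low_or_high hr hg hN hU hs with h | h
  · exact h
  · exfalso
    -- all but finitely many nearby colourings are fixed on the three transversals
    apply hN
    have hfin := ((finite_moved hU ht).union (finite_moved hU ht')).union (finite_moved hU hs)
    refine (hfin.union (Set.finite_singleton g)).subset ?_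
    intro f hf
    by_cases h1 : ∀ i, f (t i) = i
    · by_cases h2 : ∀ i, f (t' i) = i
      · by_cases h3 : ∀ i, f (jn r t t' i) = i
        · right
          rw [Set.mem_singleton_iff]
          funext x
          by_cases hx : r (jn r t t' (g x)) x
          · exact h f hf h3 x hx
          · have hx' : r x (jn r t t' (g x)) := by
              rcases hg x (jn r t t' (g x)) (hs.1 (g x)).symm with h' | h'
              · exact h'
              · exact absurd h' hx
            rcases jn_cases (r := r) t t' (g x) with e | e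
            · rw [e] at hx'; exact hl f hf h1 x hx'
            · rw [e] at hx'; exact hl' f hf h2 x hx'
        · exact Or.inl (Or.inr ⟨hf, h3⟩)
      · exact Or.inl (Or.inl (Or.inr ⟨hf, h2⟩))
    · exact Or.inl (Or.inl (Or.inl ⟨hf, h1⟩))

theorem comp_mem {f : α → Fin k} (hf : f ∈ ChainCol r k) (σ : Equiv.Perm (Fin k)) :
    (fun x => σ (f x)) ∈ ChainCol r k := by
  intro x y hxy
  exact hf x y (σ.injective hxy)

theorem claimA (hr : PO r) {F : Finset α} {g : α → Fin k} (hg : g ∈ ChainCol r k)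
    (hN : (Nb r k F g).Infinite) (hU : ∀ a, {f | f ∈ Nb r k F g ∧ f a ≠ g a}.Finite) :
    {f | f ∈ Nb r k F g ∧ ∃ t, Tr r g t ∧ Low r F g t ∧ ∃ x, r x (t (g x)) ∧ f x ≠ g x}.Finite := by
  classical
  by_contra hbad
  change Set.Infinite _ at hbad
  obtain ⟨f₀, -, t₀', ht₀', hl₀', -⟩ := hbad.nonempty
  -- a low transversal capturing `F`
  have hcap : ∀ F' : Finset α, ∃ t₀, Tr r g t₀ ∧ Low r F g t₀ ∧ ∀ x ∈ F',
      (∃ t, Tr r g t ∧ Low r F g t ∧ r x (t (g x))) → r x (t₀ (g x)) := by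
    intro F'
    induction F' using Finset.induction_on with
    | empty => exact ⟨t₀', ht₀', hl₀', by simp⟩
    | insert b F' _ ih =>
      obtain ⟨t₁, ht₁, hl₁, h₁⟩ := ih
      by_cases hb : ∃ t, Tr r g t ∧ Low r F g t ∧ r b (t (g b))
      · obtain ⟨t₂, ht₂, hl₂, h₂⟩ := hb
        refine ⟨jn r t₁ t₂, tr_jn hr hg ht₁ ht₂, low_jn hr hg hN hU ht₁ ht₂ hl₁ hl₂, ?_⟩
        intro x hx hex
        rcases Finset.mem_insert.1 hx with rfl | hx
        · exact hr.trans _ _ _ h₂ (le_jn hr hg ht₁ ht₂ _).2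
        · exact hr.trans _ _ _ (h₁ x hx hex) (le_jn hr hg ht₁ ht₂ _).1
      · refine ⟨t₁, ht₁, hl₁, ?_⟩
        intro x hx hex
        rcases Finset.mem_insert.1 hx with rfl | hx
        · exact absurd hex hb
        · exact h₁ x hx hex
  obtain ⟨t₀, ht₀, hl₀, hcap₀⟩ := hcap F
  -- every low transversal is moved above by a nearby colouring
  have hmove : ∀ t, Tr r g t → Low r F g t → ∃ s, Tr r g s ∧ Low r F g s ∧ (∀ i, r (t i) (s i)) ∧
      ∃ f ∈ ChainCol r k, (∀ x, r x (t (g x)) → f x = g x) ∧ ∃ i, f (s i) ≠ i := by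
    intro t ht hl
    have : ({f | f ∈ Nb r k F g ∧ ∃ t, Tr r g t ∧ Low r F g t ∧ ∃ x, r x (t (g x)) ∧ f x ≠ g x} \
        {f | f ∈ Nb r k F g ∧ ¬ ∀ i, f (t i) = i}).Nonempty :=
      (hbad.diff (finite_moved hU ht)).nonempty
    obtain ⟨f, ⟨hf, t', ht', hl', x, hx, hfx⟩, hf2⟩ := this
    have hft : ∀ i, f (t i) = i := by
      by_contra h
      exact hf2 ⟨hf, h⟩
    refine ⟨jn r t t', tr_jn hr hg ht ht', low_jn hr hg hN hU ht ht' hl hl',
      fun i => (le_jn hr hg ht ht' i).1, f, hf.1, hl f hf hft, ?_⟩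
    by_contra hcon
    push Not at hcon
    exact hfx (low_jn hr hg hN hU ht ht' hl hl' f hf hcon x
      (hr.trans _ _ _ hx (le_jn hr hg ht ht' _).2))
  -- the permutations realised above `t`
  let 𝒮 : (Fin k → α) → Set (Equiv.Perm (Fin k)) := fun t =>
    {σ | σ ≠ 1 ∧ ∃ s, Tr r g s ∧ Low r F g s ∧ (∀ i, r (t i) (s i)) ∧
      ∃ f ∈ ChainCol r k, (∀ x, r x (t (g x)) → f x = g x) ∧ ∀ i, f (s i) = σ i}
  have h𝒮ne : ∀ t, Tr r g t → Low r F g t → (𝒮 t).Nonempty := by
    intro t ht hl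
    obtain ⟨s, hs, hls, hts, f, hf, hft, i, hi⟩ := hmove t ht hl
    refine ⟨Equiv.ofBijective _ (bij_of_tr hs hf), ?_, s, hs, hls, hts, f, hf, hft, fun i => rfl⟩
    intro h
    apply hi
    have := congrArg (fun e : Equiv.Perm (Fin k) => e i) h
    simpa using this
  have h𝒮anti : ∀ t t', (∀ i, r (t i) (t' i)) → 𝒮 t' ⊆ 𝒮 t := by
    rintro t t' htt' σ ⟨h1, s, hs, hls, hts, f, hf, hft, hfs⟩
    exact ⟨h1, s, hs, hls, fun i => hr.trans _ _ _ (htt' i) (hts i), f, hf,
      fun x hx => hft x (hr.trans _ _ _ hx (htt' _)), hfs⟩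
  -- choose a transversal with minimal 𝒮
  let P : ℕ → Prop := fun n => ∃ t, Tr r g t ∧ Low r F g t ∧ (∀ i, r (t₀ i) (t i)) ∧
    (𝒮 t).ncard = n
  have hP : ∃ n, P n := ⟨_, t₀, ht₀, hl₀, fun i => hr.refl _, rfl⟩
  obtain ⟨t₁, ht₁, hl₁, ht₀₁, hcard⟩ := Nat.find_spec hP
  have hmin : ∀ t, Tr r g t → Low r F g t → (∀ i, r (t₁ i) (t i)) → 𝒮 t = 𝒮 t₁ := by
    intro t ht hl h
    have h1 : Nat.find hP ≤ (𝒮 t).ncard :=
      Nat.find_min' hP ⟨t, ht, hl, fun i => hr.trans _ _ _ (ht₀₁ i) (h i), rfl⟩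
    exact Set.eq_of_subset_of_ncard_le (h𝒮anti _ _ h) (by rw [hcard]; exact h1) (Set.toFinite _)
  obtain ⟨σ, hσ⟩ := h𝒮ne t₁ ht₁ hl₁
  -- iterate
  have hiter : ∀ n : ℕ, ∃ s, Tr r g s ∧ Low r F g s ∧ (∀ i, r (t₁ i) (s i)) ∧
      ∃ f ∈ ChainCol r k, (∀ x, r x (t₁ (g x)) → f x = g x) ∧
        (∃ x, r x (s (g x)) ∧ f x ≠ g x) ∧ ∀ i, f (s i) = (σ ^ (n + 1)) i := by
    intro n
    induction n with
    | zero =>
      obtain ⟨h1, s, hs, hls, hts, f, hf, hft, hfs⟩ := hσ
      refine ⟨s, hs, hls, hts, f, hf, hft, ?_, by simpa using hfs⟩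
      have : ∃ i, σ i ≠ i := by
        by_contra hcon
        push Not at hcon
        exact h1 (Equiv.ext hcon)
      obtain ⟨i, hi⟩ := this
      refine ⟨s i, ?_, ?_⟩
      · rw [hs.1 i]; exact hr.refl _
      · rw [hfs, hs.1]; exact hi
    | succ n ih =>
      obtain ⟨s, hs, hls, hts, f, hf, hft, ⟨x, hx, hfx⟩, hfs⟩ := ih
      have hσs : σ ∈ 𝒮 s := by rw [hmin s hs hls hts]; exact hσ
      obtain ⟨h1, s', hs', hls', hss', f', hf', hft', hfs'⟩ := hσs
      have hcomp : ∀ i, f (s i) = (σ ^ (n + 1)) (f' (s i)) := by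
        intro i
        rw [hfs, hft' (s i) (by rw [hs.1]; exact hr.refl _), hs.1]
      refine ⟨s', hs', hls', fun i => hr.trans _ _ _ (hts i) (hss' i),
        hyb r g f (fun x => (σ ^ (n + 1)) (f' x)) s, ?_, ?_, ⟨x, ?_, ?_⟩, ?_⟩
      · exact hyb_mem hr hg hf (comp_mem hf' _) hs hcomp
      · intro y hy
        have hy' : r y (s (g y)) := hr.trans _ _ _ hy (hts _)
        rw [hyb_pos hy']
        exact hft y hy
      · exact hr.trans _ _ _ hx (hss' _)
      · rw [hyb_pos hx]; exact hfx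
      · intro i
        have e : (σ ^ (n + 1 + 1)) i = (σ ^ (n + 1)) (f' (s' i)) := by
          rw [hfs', pow_succ]; rfl
        by_cases h : r (s' i) (s (g (s' i)))
        · rw [hyb_pos h, e]
          rw [hs'.1] at h
          have hh : s' i = s i := hr.antisymm _ _ h (hss' i)
          rw [hh]; exact hcomp i
        · rw [hyb_neg h, e]
  -- take the order of σ
  have hord : 0 < orderOf σ := orderOf_pos σ
  obtain ⟨s, hs, hls, hts, f, hf, hft, ⟨x, hx, hfx⟩, hfs⟩ := hiter (orderOf σ - 1)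
  have hfs1 : ∀ i, f (s i) = i := by
    intro i
    rw [hfs, Nat.sub_add_cancel hord, pow_orderOf_eq_one]
    rfl
  have hmem : hyb r g f g s ∈ Nb r k F g := by
    refine ⟨hyb_mem hr hg hf hg hs (fun i => by rw [hfs1, hs.1]), ?_⟩
    intro y hy
    by_cases h : r y (s (g y))
    · rw [hyb_pos h]
      apply hft
      exact hr.trans _ _ _ (hcap₀ y hy ⟨s, hs, hls, h⟩) (ht₀₁ _)
    · rw [hyb_neg h]
  have hfix : ∀ i, hyb r g f g s (s i) = i := by
    intro i
    by_cases h : r (s i) (s (g (s i)))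
    · rw [hyb_pos h, hfs1]
    · rw [hyb_neg h, hs.1]
  have := hls _ hmem hfix x hx
  rw [hyb_pos hx] at this
  exact hfx this

theorem chainCol_flip : ChainCol (fun x y => r y x) k = ChainCol r k := by
  ext f
  constructor
  · intro h x y hxy; exact (h x y hxy).symm
  · intro h x y hxy; exact (h x y hxy).symm

theorem po_flip (hr : PO r) : PO (fun x y => r y x) :=
  ⟨hr.refl, fun x y h1 h2 => hr.antisymm x y h2 h1, fun x y z h1 h2 => hr.trans z y x h2 h1⟩

theorem nb_flip (F : Finset α) (g : α → Fin k) : Nb (fun x y => r y x) k F g = Nb r k F g := by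
  unfold Nb
  rw [chainCol_flip]

theorem claimB (hr : PO r) {F : Finset α} {g : α → Fin k} (hg : g ∈ ChainCol r k)
    (hN : (Nb r k F g).Infinite) (hU : ∀ a, {f | f ∈ Nb r k F g ∧ f a ≠ g a}.Finite) :
    {f | f ∈ Nb r k F g ∧ ∃ t, Tr r g t ∧ High r F g t ∧ ∃ x, r (t (g x)) x ∧ f x ≠ g x}.Finite := by
  have h := claimA (r := fun x y => r y x) (k := k) (po_flip hr) (F := F) (g := g)
    (by rw [chainCol_flip]; exact hg) (by rw [nb_flip]; exact hN)
    (by intro a; rw [nb_flip]; exact hU a)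
  rw [nb_flip] at h
  refine h.subset ?_
  rintro f ⟨hf, t, ht, hh, x, hx⟩
  refine ⟨hf, t, ⟨ht.1, fun i j hij => (ht.2 j i hij).symm⟩, ?_, x, hx⟩
  intro f' hf' hft' y hy
  rw [nb_flip] at hf'
  exact hh f' hf' hft' y hy

theorem chain_dichotomy [Countable α] (hr : PO r) (k : ℕ) :
    (ChainCol r k).Finite ∨ ¬ (ChainCol r k).Countable := by
  classical
  by_contra H
  rw [not_or, not_not] at H
  obtain ⟨hinf, hc⟩ := H
  change (ChainCol r k).Infinite at hinf
  obtain ⟨F, g, hg, hN, hU⟩ := exists_rank_one hinf hc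
  have hA := claimA hr hg hN hU
  have hB := claimB hr hg hN hU
  by_cases hJ : {x | ¬ ∃ T : Finset α, Anti r T ∧ T.card = k ∧ x ∈ T}.Infinite
  · exact uncountable_of_noncore hr hg hJ hc
  · rw [Set.not_infinite] at hJ
    set J := {x | ¬ ∃ T : Finset α, Anti r T ∧ T.card = k ∧ x ∈ T} with hJdef
    have : Finite J := hJ.to_subtype
    set N' := Nb r k F g \ ({f | f ∈ Nb r k F g ∧ ∃ t, Tr r g t ∧ Low r F g t ∧
      ∃ x, r x (t (g x)) ∧ f x ≠ g x} ∪ {f | f ∈ Nb r k F g ∧ ∃ t, Tr r g t ∧ High r F g t ∧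
      ∃ x, r (t (g x)) x ∧ f x ≠ g x}) with hN'
    have hN'inf : N'.Infinite := hN.diff (hA.union hB)
    have hout : ∀ f ∈ N', ∀ x, x ∉ J → f x = g x := by
      intro f hf x hx
      by_contra hne
      have hxT : ∃ T : Finset α, Anti r T ∧ T.card = k ∧ x ∈ T := by
        by_contra h
        exact hx h
      obtain ⟨T, hT, hTk, hxT⟩ := hxT
      have hinj : Set.InjOn g T := by
        intro x hx y hy hxy
        rcases hg x y hxy with h | h
        · exact hT x hx y hy h
        · exact (hT y hy x hx h).symm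
      have himg : T.image g = Finset.univ := by
        apply Finset.eq_univ_of_card
        rw [Finset.card_image_of_injOn hinj, hTk, Fintype.card_fin]
      have hex : ∀ i : Fin k, ∃ y ∈ T, g y = i := by
        intro i
        have : i ∈ T.image g := by rw [himg]; exact Finset.mem_univ _
        exact Finset.mem_image.1 this
      choose t ht1 ht2 using hex
      have ht : Tr r g t := by
        refine ⟨ht2, fun i j hij => ?_⟩
        have := hT _ (ht1 i) _ (ht1 j) hij
        rw [← ht2 i, ← ht2 j, this]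
      have htx : t (g x) = x := hinj (ht1 _) hxT (ht2 _)
      rcases low_or_high hr hg hN hU ht with h | h
      · exact hf.2 (Or.inl ⟨hf.1, t, ht, h, x, by rw [htx]; exact hr.refl _, hne⟩)
      · exact hf.2 (Or.inr ⟨hf.1, t, ht, h, x, by rw [htx]; exact hr.refl _, hne⟩)
    apply hN'inf
    let Ψ : N' → (J → Fin k) := fun f x => f.1 x.1
    have hΨ : Function.Injective Ψ := by
      rintro ⟨f, hf⟩ ⟨f', hf'⟩ hff
      apply Subtype.ext
      funext x
      by_cases hx : x ∈ J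
      · exact congrFun hff ⟨x, hx⟩
      · change f x = f' x
        rw [hout f hf x hx, hout f' hf' x hx]
    have : Finite N' := Finite.of_injective Ψ hΨ
    exact Set.toFinite _

end core

end Pool.Agent.H.MP_233b81_lc
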