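import Mathlib

/-!
Definitions: computably bounded `Π⁰₁` classes, degree-preserving representation, computable partial
orderings and their decompositions into `k` chains or `k` antichains.
-/

namespace Pool.Agent.H.MP_233b81_lc

/-- A tree: a set of finite strings closed under initial segments. -/
def IsTree (T : Set (List ℕ)) : Prop :=
  ∀ σ ∈ T, ∀ τ : List ℕ, τ <+: σ → τ ∈ T

/-- The infinite paths `[T]`: all `x ∈ ω^ω` all of whose finite restrictions
`(x 0, ..., x (n-1))` lie in `T`. -/
def infPaths (T : Set (List ℕ)) : Set (ℕ → ℕ) :=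
  {x | ∀ n : ℕ, (List.range n).map x ∈ T}

/-- `P` is a computably bounded `Π⁰₁` class: `P = [T]` for a computable tree `T` which is
`g`-bounded for a computable function `g`. -/
def IsCBClass (P : Set (ℕ → ℕ)) : Prop :=
  ∃ T : Set (List ℕ), IsTree T ∧ ComputablePred (fun σ : List ℕ => σ ∈ T) ∧
    (∃ g : List ℕ → ℕ, Computable g ∧ ∀ (σ : List ℕ) (i : ℕ), σ ++ [i] ∈ T → i < g σ) ∧
    P = infPaths T

/-- `Q` represents `P`: there is a bijection `F : P → Q` with `F f ≡_T f` for all `f ∈ P`. -/
def Represents (Q P : Set (ℕ → ℕ)) : Prop :=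
  ∃ F : P → Q, Function.Bijective F ∧
    ∀ f : P, TuringEquivalent (fun n => Part.some ((F f).1 n)) (fun n => Part.some (f.1 n))

/-- `(A, R)` is a computable partial ordering: `A ⊆ ω` is a computable set and `R ⊆ A × A` is a
computable relation which is a partial order on `A`. -/
structure IsComputablePoset (A : Set ℕ) (R : ℕ → ℕ → Prop) : Prop where
  compA : ComputablePred (fun n : ℕ => n ∈ A)
  compR : ComputablePred (fun p : ℕ × ℕ => R p.1 p.2)
  sub : ∀ x y, R x y → x ∈ A ∧ y ∈ A
  refl : ∀ x ∈ A, R x x
  antisymm : ∀ x y, R x y → R y x → x = y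
  trans : ∀ x y z, R x y → R y z → R x z

/-- Decompositions of `(A, R)` into `k` chains: maps `f : A → {0, ..., k-1}` such that any two
elements with the same value are comparable. -/
def ChainDecomp (A : Set ℕ) (R : ℕ → ℕ → Prop) (k : ℕ) : Set (A → Fin k) :=
  {f | ∀ x y : A, f x = f y → R x y ∨ R y x}

/-- Decompositions of `(A, R)` into `k` antichains: maps `f : A → {0, ..., k-1}` such that no two
distinct elements with the same value are comparable. -/
def AntichainDecomp (A : Set ℕ) (R : ℕ → ℕ → Prop) (k : ℕ) : Set (A → Fin k) :=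
  {f | ∀ x y : A, f x = f y → x ≠ y → ¬ R x y ∧ ¬ R y x}

end Pool.Agent.H.MP_233b81_lc
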