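import Mathlib
import Pool.Agent.H.MP_233b81_lc.Defs

/-!
The countably infinite class of binary sequences with at most one `1`.
-/

namespace Pool.Agent.H.MP_233b81_lc

/-- strings with sum at most one -/
def T₀ : Set (List ℕ) := {σ | σ.sum ≤ 1}

/-- the class of binary sequences with at most one `1` -/
def P₀ : Set (ℕ → ℕ) := infPaths T₀

theorem primrec_sum : Primrec (fun σ : List ℕ => σ.sum) := by
  have h2 : Primrec₂ (fun (_ : List ℕ) (p : ℕ × ℕ) => p.1 + p.2) :=
    (Primrec.nat_add.comp (Primrec.fst.comp Primrec.snd) (Primrec.snd.comp Primrec.snd)).to₂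
  have h : Primrec (fun σ : List ℕ => (id σ).foldr (fun a b => a + b) 0) :=
    Primrec.list_foldr (f := fun σ : List ℕ => id σ) (g := fun _ => (0 : ℕ))
      Primrec.id (Primrec.const 0) h2
  exact h

theorem P₀_cb : IsCBClass P₀ := by
  refine ⟨T₀, ?_, ?_, ⟨fun _ => 2, Computable.const 2, ?_⟩, rfl⟩
  · intro σ hσ τ hτ
    obtain ⟨ρ, rfl⟩ := hτ
    change (τ ++ ρ).sum ≤ 1 at hσ
    change τ.sum ≤ 1
    rw [List.sum_append] at hσ
    omega
  · have h : PrimrecPred (fun σ : List ℕ => σ.sum ≤ 1) :=
      Primrec.nat_le.comp primrec_sum (Primrec.const 1)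
    exact h.computablePred
  · intro σ i h
    change (σ ++ [i]).sum ≤ 1 at h
    rw [List.sum_append, List.sum_singleton] at h
    change i < 2
    omega

theorem mem_P₀ {x : ℕ → ℕ} : x ∈ P₀ ↔ ∀ n, ((List.range n).map x).sum ≤ 1 := Iff.rfl

theorem single_mem (m : ℕ) : (fun n => if n = m then 1 else 0) ∈ P₀ := by
  rw [mem_P₀]
  intro n
  induction n with
  | zero => simp
  | succ n ih =>
    rw [List.range_succ, List.map_append, List.sum_append]
    by_cases h : n = m
    · subst h
      have h0 : ((List.range n).map (fun j => if j = n then 1 else 0)).sum = 0 := by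
        apply List.sum_eq_zero
        intro x hx
        obtain ⟨j, hj, rfl⟩ := List.mem_map.1 hx
        have : j < n := List.mem_range.1 hj
        rw [if_neg (by omega)]
      rw [h0]; simp
    · simpa [h] using ih

theorem P₀_infinite : P₀.Infinite := by
  refine Set.infinite_of_injective_forall_mem (f := fun m n => if n = m then 1 else 0) ?_
    single_mem
  intro m m' h
  have := congrFun h m
  simp only [if_true] at this
  by_contra hne
  rw [if_neg hne] at this
  exact one_ne_zero this

theorem P₀_countable : P₀.Countable := by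
  have hsub : P₀ ⊆ insert (fun _ => 0) (Set.range (fun m n : ℕ => if n = m then 1 else 0)) := by
    intro x hx
    rw [mem_P₀] at hx
    have hsum : ∀ n, ((List.range n).map x).sum = ∑ i ∈ Finset.range n, x i := by
      intro n
      rfl
    by_cases h0 : ∀ n, x n = 0
    · left; funext n; exact h0 n
    · right
      push Not at h0
      obtain ⟨m, hm⟩ := h0
      refine ⟨m, ?_⟩
      funext n
      have key : ∀ n, n ≠ m → x n = 0 ∧ x m = 1 := by
        intro n hn
        have h1 := hx (max n m + 1)
        rw [hsum] at h1
        have h2 : x n + x m ≤ ∑ i ∈ Finset.range (max n m + 1), x i := by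
          rw [← Finset.sum_pair hn]
          apply Finset.sum_le_sum_of_subset
          intro j hj
          rw [Finset.mem_insert, Finset.mem_singleton] at hj
          rw [Finset.mem_range]
          rcases hj with rfl | rfl
          · have := le_max_left j m; omega
          · have := le_max_right n j; omega
        omega
      by_cases hn : n = m
      · subst hn
        have := (key (n + 1) (by omega)).2
        simp [this]
      · have := (key n hn).1
        simp [this, hn]
  exact ((Set.countable_range _).insert _).mono hsub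

/-- the cardinality obstruction -/
theorem no_rep {X : Type*} (D : Set X) (hD : D.Finite ∨ ¬ D.Countable) (c : X → ℕ → ℕ)
    (hc : Set.InjOn c D) : ¬ Represents P₀ (c '' D) := by
  rintro ⟨F, hF, -⟩
  rcases hD with h | h
  · have : Finite (c '' D) := (h.image c).to_subtype
    have : Finite P₀ := Finite.of_surjective F hF.2
    exact P₀_infinite (Set.toFinite _)
  · apply h
    have : Countable P₀ := P₀_countable.to_subtype
    have h2 : Countable (c '' D) := hF.1.countable
    exact Set.countable_of_injective_of_countable_image hc h2.to_set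

theorem no_rep_renaming {A : Type*} {k : ℕ} (D : Set (A → Fin k)) (hD : D.Finite ∨ ¬ D.Countable) :
    ¬ ∃ F : P₀ → (A → Fin k), (∀ p, F p ∈ D) ∧
      ∀ d ∈ D, ∃! p : P₀, ∃ τ : Equiv.Perm (Fin k), d = fun x => τ (F p x) := by
  rintro ⟨F, hF1, hF2⟩
  have hinj : Function.Injective F := by
    intro p q hpq
    obtain ⟨p', -, hp'⟩ := hF2 (F p) (hF1 p)
    have h1 := hp' p ⟨1, rfl⟩
    have h2 := hp' q ⟨1, by rw [hpq]; rfl⟩
    exact h1.trans h2.symm
  rcases hD with h | h
  · have : Finite D := h.to_subtype
    have : Finite P₀ := Finite.of_injective (fun p => (⟨F p, hF1 p⟩ : D))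
      (fun p q hpq => hinj (congrArg Subtype.val hpq))
    exact P₀_infinite (Set.toFinite _)
  · apply h
    have : Countable P₀ := P₀_countable.to_subtype
    have hsub : D ⊆ Set.range (fun q : P₀ × Equiv.Perm (Fin k) => fun x => q.2 (F q.1 x)) := by
      intro d hd
      obtain ⟨p, ⟨τ, hτ⟩, -⟩ := hF2 d hd
      exact ⟨(p, τ), hτ.symm⟩
    exact (Set.countable_range _).mono hsub

end Pool.Agent.H.MP_233b81_lc
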